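import Pool.Agent.U700.IE1

set_option autoImplicit false

noncomputable section

open MeasureTheory

namespace Pool.Agent.Results.MP_0f25e6_al.BoundedElements

/-- `α * f` is nonzero for every nonzero square-summable `f`, where
`(α * f)(g) = ∑ α(k) f(k⁻¹ g)`. -/
def Regular {G : Type} [Group G] (α : G →₀ ℂ) : Prop :=
  ∀ f : G → ℂ, Memℓp f 2 → f ≠ 0 → ∃ g : G, ∑ k ∈ α.support, α k * f (k⁻¹ * g) ≠ 0

/-- All square-summable `f` with `α * f = 0`. -/
def kernel {G : Type} [Group G] (α : G →₀ ℂ) : Set (lp (fun _ : G => ℂ) 2) :=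
  {f | ∀ g : G, ∑ k ∈ α.support, α k * f (k⁻¹ * g) = 0}

open Classical in
/-- The von Neumann dimension of the kernel of left convolution by `α`: one minus the square of the
distance from the basis vector at the identity of `G` to the kernel (this is the squared length of
the projection of that vector to the kernel). -/
def kerDim {G : Type} [Group G] (α : G →₀ ℂ) : ℝ :=
  1 - Metric.infDist (lp.single 2 (1 : G) (1 : ℂ)) (kernel α) ^ 2

/-- `α` is an element of `ℤ[G]`. -/
def Integral {G : Type} [Group G] (α : G →₀ ℂ) : Prop := ∀ g, ∃ a : ℤ, α g = a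

/-- The kernel dimensions of the elements of `ℤ[G]` of `ℓ¹`-norm at most `N`. -/
def dimsOf (G : Type) [Group G] (N : ℕ) : Set ℝ :=
  {v | ∃ α : G →₀ ℂ, Integral α ∧ α.sum (fun _ c => ‖c‖) ≤ N ∧ kerDim α = v}

/-- The same, for all groups `G` in the class `C`. -/
def dims (C : (G : Type) → [Group G] → Prop) (N : ℕ) : Set ℝ :=
  {v | ∃ (G : Type) (_ : Group G), C G ∧ v ∈ dimsOf G N}

/-- The analytic zero divisor conjecture for the groups of the class `C`. -/
def Analytic (C : (G : Type) → [Group G] → Prop) : Prop :=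
  ∀ (G : Type) [Group G], C G → ∀ α : G →₀ ℂ, α ≠ 0 → Regular α

/-- `G` is generated by two elements. -/
def TwoGenerated (G : Type) [Group G] : Prop := ∃ a b : G, Subgroup.closure {a, b} = ⊤

/-- `G` is torsion-free. -/
def TorsionFree (G : Type) [Group G] : Prop := ∀ g : G, ∀ n : ℕ, 0 < n → g ^ n = 1 → g = 1

/-- Normalised Hamming distance: the proportion of points where two permutations differ. -/
def hamm {n : ℕ} (σ τ : Equiv.Perm (Fin n)) : ℝ :=
  ((Finset.univ.filter fun i => σ i ≠ τ i).card : ℝ) / n

/-- `G` is sofic. -/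
def IsSofic (G : Type) [Group G] : Prop :=
  ∀ A : Finset G, (1 : G) ∈ A → ∀ ε : ℝ, 0 < ε →
    ∃ n : ℕ, 1 ≤ n ∧ ∃ φ : G → Equiv.Perm (Fin n),
      φ 1 = 1 ∧
      (∀ a ∈ A, ∀ b ∈ A, a * b ∈ A → hamm (φ (a * b)) (φ a * φ b) < ε) ∧
      ∀ a ∈ A, a ≠ 1 → 1 - ε ≤ hamm (φ a) 1

/-- `C` is a class of torsion-free groups which is closed under subgroups, direct products,
semidirect products with `ℤ` and free products with free groups of finite rank. -/
structure ClosedClass (C : (G : Type) → [Group G] → Prop) : Prop where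
  torsionFree : ∀ (G : Type) [Group G], C G → TorsionFree G
  subgroup : ∀ (G H : Type) [Group G] [Group H] (f : G →* H), Function.Injective f → C H → C G
  product : ∀ (I : Type) (G : I → Type) [∀ i, Group (G i)], (∀ i, C (G i)) → C (∀ i, G i)
  semidirect : ∀ (G : Type) [Group G] (s : MulAut G), C G →
    C (G ⋊[zpowersHom (MulAut G) s] Multiplicative ℤ)
  freeProduct : ∀ (G : Type) [Group G] (m : ℕ), C G → C (Monoid.Coprod G (FreeGroup (Fin m)))

/-- Moreover the groups of `C` are sofic and `C` is closed under ultraproducts of sequences of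
groups: if `f` is a surjective homomorphism from the direct product of groups `G i` of `C` to a
group `H` whose kernel consists of the sequences which are trivial at almost every `i`, with respect
to an ultrafilter `U`, then `H` belongs to `C`. -/
structure SoficClass (C : (G : Type) → [Group G] → Prop) : Prop extends ClosedClass C where
  sofic : ∀ (G : Type) [Group G], C G → IsSofic G
  ultraproduct : ∀ (U : Ultrafilter ℕ) (G : ℕ → Type) [∀ i, Group (G i)] (H : Type) [Group H]
    (f : (∀ i, G i) →* H), Function.Surjective f →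
      (∀ x, f x = 1 ↔ ∀ᶠ i in (U : Filter ℕ), x i = 1) → (∀ i, C (G i)) → C H

/-! ### Transfer -/

open Pool.Agent Pool.Agent.U700
open Pool.Agent.H80R2.BC (GMat vdim kerA)

theorem kerDim_eq {G : Type} [Group G] (α : G →₀ ℂ) :
    kerDim α = vdim (kerA (R941.AE.el1 α)) := by
  have h1 : kerDim α = 1 - R941.AE.rk (R941.AE.el1 α) := R941.AE.kdim_eq α
  rw [h1]
  unfold R941.AE.rk
  simp

/-- the one by one matrix indexed by `Fin 1` -/
def one1 {G : Type} (α : G →₀ ℂ) : GMat (Fin 1) (Fin 1) G := fun _ _ => α

theorem kerDim_eq' {G : Type} [Group G] (α : G →₀ ℂ) : kerDim α = vdim (kerA (one1 α)) := by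
  rw [kerDim_eq]
  have e : (Fin 1) ≃ Unit := Equiv.ofUnique (Fin 1) Unit
  exact (W656.VA.vdim_ri e e (R941.AE.el1 α)).symm

theorem dimsOf_eq (G : Type) [Group G] (N : ℕ) : dimsOf G N =
    {v | ∃ A : GMat (Fin 1) (Fin 1) G, NI.Sm N A ∧ vdim (kerA A) = v} := by
  ext v
  constructor
  · rintro ⟨α, hα, hN, hv⟩
    exact ⟨one1 α, fun _ _ => ⟨hα, hN⟩, by rw [← kerDim_eq']; exact hv⟩
  · rintro ⟨A, hA, hv⟩
    refine ⟨A 0 0, (hA 0 0).1, (hA 0 0).2, ?_⟩
    have e : one1 (A 0 0) = A := by
      funext i j
      rw [Subsingleton.elim i 0, Subsingleton.elim j 0]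
      rfl
    rw [kerDim_eq', e]
    exact hv

theorem closed_iff {C : (G : Type) → [Group G] → Prop} (h : ClosedClass C) :
    AllOrNothingForElements.ClosedClass C :=
  ⟨h.torsionFree, h.subgroup, h.product, h.semidirect, h.freeProduct⟩

theorem closed_iff' {C : (G : Type) → [Group G] → Prop}
    (h : AllOrNothingForElements.ClosedClass C) : ClosedClass C :=
  ⟨h.torsionFree, h.subgroup, h.product, h.semidirect, h.freeProduct⟩

theorem sofic_iff {C : (G : Type) → [Group G] → Prop} (h : SoficClass C) : NI.Cl C where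
  torsionFree := h.torsionFree
  subgroup := h.subgroup
  product := h.product
  semidirect := h.semidirect
  freeProduct := h.freeProduct
  sofic := h.sofic
  ultra := h.ultraproduct

theorem sofic_iff' {C : (G : Type) → [Group G] → Prop} (h : NI.Cl C) : SoficClass C where
  torsionFree := h.torsionFree
  subgroup := h.subgroup
  product := h.product
  semidirect := h.semidirect
  freeProduct := h.freeProduct
  sofic := h.sofic
  ultraproduct := h.ultra

theorem dims_eq (C : (G : Type) → [Group G] → Prop) (N : ℕ) :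
    dims C N = ⋃ c ∈ NI.SP 1 1 N, NI.dimsC C c := by
  ext v
  simp only [Set.mem_iUnion, exists_prop]
  constructor
  · rintro ⟨G, iG, hG, hv⟩
    rw [dimsOf_eq] at hv
    obtain ⟨A, hA, hv⟩ := hv
    obtain ⟨c, hc, g, hg⟩ := NI.pat_of_sm A hA
    exact ⟨c, hc, G, iG, hG, g, by rw [hg]; exact hv⟩
  · rintro ⟨c, hc, G, iG, hG, g, hv⟩
    refine ⟨G, iG, hG, ?_⟩
    rw [dimsOf_eq]
    exact ⟨NI.PM c g, NI.sm_PM c hc g, hv⟩

theorem isClosed_dims {C : (G : Type) → [Group G] → Prop} (hC : SoficClass C) (N : ℕ) :
    IsClosed (dims C N) := by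
  rw [dims_eq]
  exact (NI.finite_SP 1 1 N).isClosed_biUnion fun c _ => NI.isClosed_dimsC (sofic_iff hC) c

theorem dims_closure {C : (G : Type) → [Group G] → Prop} (hC : SoficClass C) {V : Type} [Group V]
    (hV : C V) (h : ∀ (m n k : ℕ) (c : Fin m → Fin n → Fin k → ℤ),
      NI.dimsC C c = closure (NI.dimsG V c)) (N : ℕ) : dims C N = closure (dimsOf V N) := by
  apply Set.Subset.antisymm
  · intro v hv
    rw [dims_eq] at hv
    simp only [Set.mem_iUnion, exists_prop] at hv
    obtain ⟨c, hc, hv⟩ := hv
    rw [h] at hv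
    refine closure_mono ?_ hv
    rintro w ⟨g, hg⟩
    rw [dimsOf_eq]
    exact ⟨NI.PM c g, NI.sm_PM c hc g, hg⟩
  · refine closure_minimal ?_ (isClosed_dims hC N)
    intro v hv
    exact ⟨V, inferInstance, hV, hv⟩

theorem dimsOf_mem {G : Type} [Group G]
    (h : ∀ α : G →₀ ℂ, Integral α → α ≠ 0 → Regular α) {N : ℕ} {v : ℝ} (hv : v ∈ dimsOf G N) :
    v = 0 ∨ v = 1 := by
  obtain ⟨α, hα, _, hv⟩ := hv
  by_cases h0 : α = 0
  · right
    have h1 : kerDim α = 1 - R941.AE.rk (R941.AE.el1 α) := R941.AE.kdim_eq α
    rw [← hv, h1, h0, R941.AE.rk_el_zero, sub_zero]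
  · left
    rw [← hv]
    exact AllOrNothingForElements.kd_of_regular (h α hα h0)

theorem finite_of {S : Set ℝ} (h : ∀ v ∈ S, v = 0 ∨ v = 1) : S.Finite :=
  (Set.toFinite ({0, 1} : Set ℝ)).subset fun v hv => by
    rcases h v hv with h1 | h1
    · exact Or.inl h1
    · exact Or.inr h1

theorem interval {C : (G : Type) → [Group G] → Prop} (hC : ClosedClass C) (h : ¬ Analytic C) :
    ∃ (W : Type) (_ : Group W), C W ∧ ∃ (N : ℕ) (u v : ℝ), u < v ∧
      Set.Icc u v ⊆ dimsOf W N := by
  obtain ⟨W, iW, hW, N, u, v, _, huv, _, hr⟩ := IE.el_interval (closed_iff hC) h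
  refine ⟨W, iW, hW, N, u, v, huv, ?_⟩
  rintro r ⟨h1, h2⟩
  obtain ⟨α, hα, hN, hv⟩ := hr r h1 h2
  refine ⟨α, fun g => ?_, hN, hv⟩
  obtain ⟨a, ha⟩ := Subring.mem_bot.1 (hα g)
  exact ⟨a, ha.symm⟩

theorem rational {C : (G : Type) → [Group G] → Prop} (hC : ClosedClass C) (h : ¬ Analytic C) :
    ∃ (W : Type) (_ : Group W), C W ∧ TwoGenerated W ∧ ∃ (N : ℕ) (u v : ℝ), u < v ∧
      ∀ r : ℚ, u ≤ r → (r : ℝ) ≤ v → (r : ℝ) ∈ dimsOf W N := by
  obtain ⟨W, iW, hW, hab, N, u, v, _, huv, _, hr⟩ := IE.el_rational (closed_iff hC) h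
  refine ⟨W, iW, hW, hab, N, u, v, huv, fun r h1 h2 => ?_⟩
  obtain ⟨α, hα, hN, hv⟩ := hr r h1 h2
  refine ⟨α, fun g => ?_, hN, hv⟩
  obtain ⟨a, ha⟩ := Subring.mem_bot.1 (hα g)
  exact ⟨a, ha.symm⟩

/-- **Analytic zero divisors: elements of bounded norm.**

(a) Let `C` be a class of torsion-free groups which is closed under subgroups, direct products,
semidirect products with `ℤ` and free products with free groups of finite rank, for example the
class of all torsion-free groups. The following are equivalent.

1. The analytic zero divisor conjecture holds for all groups of `C`: `α * f ≠ 0` for all nonzero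
   `α` in `ℂ[G]` and all nonzero `f` in `ℓ²(G)`.
2. For each `N` the set `dims C N` of the kernel dimensions of the elements of `ℤ[G]`, `G` in `C`,
   of `ℓ¹`-norm at most `N` is finite.
3. For each `N` this set has Lebesgue measure zero.
4. For each group `G` in `C` and each `N` the set `dimsOf G N` of the kernel dimensions of the
   elements of `ℤ[G]` of `ℓ¹`-norm at most `N` contains no interval.
5. For each group `G` in `C` which is generated by two elements and each `N`, the set `dimsOf G N`
   does not contain all rational numbers of an interval `[u, v]`, `u < v`.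

So if the conjecture fails for one torsion-free group, then there are a torsion-free group `G` and a
number `N` such that the kernel dimensions of the elements of `ℤ[G]` with at most `N` terms and
coefficients at most `N` fill an interval.

(b) Let moreover `C` be closed under ultraproducts and consist of sofic groups, for example the
class of all torsion-free sofic groups. Then there is one group `V` in `C`, generated by two
elements, such that for every `N` the set `dims C N` is closed and is the closure of `dimsOf V N`,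
the set for `V` alone. The following are equivalent.

1. The analytic zero divisor conjecture holds for all groups of `C`.
2. It holds for the elements of `ℤ[V]`.
3. For each `N` the set `dimsOf V N` is nowhere dense. -/
theorem result :
    (ClosedClass (fun (G : Type) [Group G] => TorsionFree G) ∧
      ∀ C : (G : Type) → [Group G] → Prop, ClosedClass C → List.TFAE [
        Analytic C,
        ∀ N, (dims C N).Finite,
        ∀ N, volume (dims C N) = 0,
        ∀ (G : Type) [Group G], C G → ∀ N, interior (dimsOf G N) = ∅,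
        ∀ (G : Type) [Group G], C G → TwoGenerated G → ∀ (N : ℕ) (u v : ℝ), u < v →
          ∃ r : ℚ, u ≤ r ∧ (r : ℝ) ≤ v ∧ (r : ℝ) ∉ dimsOf G N]) ∧
    (SoficClass (fun (G : Type) [Group G] => TorsionFree G ∧ IsSofic G) ∧
      ∀ C : (G : Type) → [Group G] → Prop, SoficClass C →
        ∃ (V : Type) (_ : Group V), C V ∧ TwoGenerated V ∧
          (∀ N, dims C N = closure (dimsOf V N)) ∧ List.TFAE [
            Analytic C,
            ∀ α : V →₀ ℂ, Integral α → α ≠ 0 → Regular α,
            ∀ N, interior (closure (dimsOf V N)) = ∅]) := by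
  refine ⟨⟨closed_iff' AllOrNothingForElements.closedClass_torsionFree, fun C hC => ?_⟩,
    ⟨sofic_iff' NI.cl_sofic, fun C hC => ?_⟩⟩
  · tfae_have 1 → 2 := by
      intro h N
      apply finite_of
      rintro v ⟨G, iG, hG, hv⟩
      exact dimsOf_mem (fun α _ h0 => h G hG α h0) hv
    tfae_have 2 → 3 := fun h N => (h N).measure_zero volume
    tfae_have 3 → 4 := by
      intro h G _ hG N
      apply Measure.interior_eq_empty_of_null (μ := volume)
      have h1 : dimsOf G N ⊆ dims C N := fun v hv => ⟨G, inferInstance, hG, hv⟩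
      exact measure_mono_null h1 (h N)
    tfae_have 4 → 1 := by
      intro h
      by_contra hno
      obtain ⟨W, iW, hW, N, u, v, huv, hsub⟩ := interval hC hno
      have h1 : Set.Ioo u v ⊆ interior (dimsOf W N) := by
        rw [← interior_Icc]
        exact interior_mono hsub
      rw [h W hW N] at h1
      exact (Set.nonempty_Ioo.2 huv).ne_empty (Set.subset_empty_iff.1 h1)
    tfae_have 1 → 5 := by
      intro h G _ hG _ N u v huv
      obtain ⟨r1, h1, h2⟩ := exists_rat_btwn huv
      obtain ⟨r2, h3, h4⟩ := exists_rat_btwn h2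
      obtain ⟨r3, h5, h6⟩ := exists_rat_btwn h4
      by_contra hcon
      push Not at hcon
      have hmem : ∀ r : ℚ, u ≤ r → (r : ℝ) ≤ v → (r : ℝ) = 0 ∨ (r : ℝ) = 1 := fun r h7 h8 =>
        dimsOf_mem (fun α _ h0 => h G hG α h0) (hcon r h7 h8)
      rcases hmem r1 h1.le h2.le with e1 | e1 <;>
        rcases hmem r2 (by linarith) (by linarith) with e2 | e2 <;>
        rcases hmem r3 (by linarith) (by linarith) with e3 | e3 <;> linarith
    tfae_have 5 → 1 := by
      intro h
      by_contra hno
      obtain ⟨W, iW, hW, hab, N, u, v, huv, hr⟩ := rational hC hno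
      obtain ⟨r, h1, h2, h3⟩ := h W hW hab N u v huv
      exact h3 (hr r h1 h2)
    tfae_finish
  · obtain ⟨V, iV, hV, hab, hd⟩ := NI.universal (sofic_iff hC)
    have hcl := dims_closure hC hV hd
    refine ⟨V, iV, hV, hab, hcl, ?_⟩
    tfae_have 1 → 2 := fun h α _ h0 => h V hV α h0
    tfae_have 2 → 3 := by
      intro h N
      apply Measure.interior_eq_empty_of_null (μ := volume)
      have h1 : (dimsOf V N).Finite := finite_of fun v hv => dimsOf_mem h hv
      rw [h1.isClosed.closure_eq]
      exact h1.measure_zero volume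
    tfae_have 3 → 1 := by
      intro h
      by_contra hno
      obtain ⟨W, iW, hW, N, u, v, huv, hsub⟩ := interval hC.toClosedClass hno
      have h1 : Set.Ioo u v ⊆ interior (dims C N) := by
        rw [← interior_Icc]
        exact interior_mono (hsub.trans fun v hv => ⟨W, iW, hW, hv⟩)
      rw [hcl N, h N] at h1
      exact (Set.nonempty_Ioo.2 huv).ne_empty (Set.subset_empty_iff.1 h1)
    tfae_finish

end Pool.Agent.Results.MP_0f25e6_al.BoundedElements
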