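import Pool.Agent.U385.RT.LIbs
import Pool.Agent.W649.ZL.Supp
import Pool.Agent.W649.ZL.Conv

/-!
# The analytic zero divisor conjecture for groups of oriented graphs

Let `D` be a finite oriented graph without directed cycles whose underlying graph has no triangles, and
let `p(u, v)` and `q(u, v)` be non-zero integers for the arrows `u → v` of `D`. The group `G` with
generators the vertices and relations `u v ^ p(u, v) u⁻¹ = v ^ q(u, v)` for all arrows `u → v` is
locally indicable, in particular torsion-free, and satisfies the analytic zero divisor conjecture:
`α * f ≠ 0` for all nonzero `α ∈ ℂG` and `f ∈ ℓ²(G)`. For one arrow these are the Baumslag-Solitar groups,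
and for `p = q = 1` the right-angled Artin groups.

More generally let `V` be a finite linearly ordered set, `Γ` a graph without triangles on `V` and `G v`
groups, and for each edge `{u, v}`, `u < v`, let `R u v` be a set of elements of the free product
`G u * G v` which become trivial if the upper group `G v` is killed (but not necessarily if `G u` is
killed). Suppose that (`OneSided`) the groups of the edges `(G u * G v) / ⟨⟨R u v⟩⟩` are locally indicable,
and that each `G v` embeds in a locally indicable group `P` such that for each edge `{u, v}`,
`u < v`, there is a homomorphism `G u → P` compatible with the relations `R u v`. Then the free product of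
all `G v` modulo all these relations is locally indicable.

Outline of the proof. For a finite set `S` of vertices let `Q S` be the group with the generators and
relations in `S`; for sets closed downwards there are retractions. By induction the subgroups
generated by disjoint sets meet trivially, and the subgroups generated by independent sets are
free products. So for the largest element `b` of `S` and the set `K` of its neighbours `Q S` is
the amalgamated product of `Q (S - b)` and `Q (K + b)` over the free product `Q K`, with a retraction to
the first factor; and `Q (K + b)` is the amalgamated product of the groups of the edges of `b` over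
`G b`, with a homomorphism to `P` which is injective on `G b`. An amalgamated product of two locally
indicable groups `A` and `B` over `F` is locally indicable if there is a homomorphism to a locally
indicable group `P` which is injective on `F`: by a version of the theorem of Kaloujnine and Krasner
with equivariant sections there is a homomorphism to an unrestricted wreath product of `P` with a
product of kernels which is injective on `A` and on `B`, and then the amalgamated product embeds in
the extension of this wreath product by a free group on a set on which it acts.
-/

set_option autoImplicit false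

namespace Pool.Agent.Results.MP_0f25e6_al.OrientedGraphGroups

open Pool.Agent.U385.RT (OneSided oneRel bsRel bs_li li_main)

/-- Every nontrivial finitely generated subgroup has a nontrivial homomorphism to the integers. -/
def LocallyIndicable (G : Type) [Group G] : Prop :=
  ∀ H : Subgroup G, H.FG → H ≠ ⊥ → ∃ φ : H →* Multiplicative ℤ, ∃ h, φ h ≠ 1

/-- `α * f` is nonzero for every nonzero square-summable `f`, where
`(α * f)(g) = ∑ α(k) f(k⁻¹ g)`. -/
def Regular {G : Type} [Group G] (α : G →₀ ℂ) : Prop :=
  ∀ f : G → ℂ, Memℓp f 2 → f ≠ 0 → ∃ g : G, ∑ k ∈ α.support, α k * f (k⁻¹ * g) ≠ 0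

/-- `G` is locally indicable and torsion-free, and `α * f ≠ 0` for all nonzero `α ∈ ℂG`, `f ∈ ℓ²(G)`. -/
def Good (G : Type) [Group G] : Prop :=
  LocallyIndicable G ∧ (∀ g : G, ∀ n : ℕ, 0 < n → g ^ n = 1 → g = 1) ∧
    ∀ α : G →₀ ℂ, α ≠ 0 → Regular α

private theorem tf {G : Type} [Group G] (h : LocallyIndicable G) (g : G) (n : ℕ) (hn : 0 < n)
    (hg : g ^ n = 1) : g = 1 := by
  by_contra hne
  obtain ⟨φ, ⟨x, hx⟩, hφ⟩ := h (Subgroup.zpowers g)
    ⟨{g}, by rw [Finset.coe_singleton, Subgroup.zpowers_eq_closure]⟩
    (fun h0 => hne (Subgroup.zpowers_eq_bot.1 h0))
  apply hφ
  obtain ⟨k, rfl⟩ := hx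
  have h1 : (⟨g ^ k, ⟨k, rfl⟩⟩ : Subgroup.zpowers g) ^ n = 1 := by
    apply Subtype.ext
    show (g ^ k) ^ n = 1
    rw [← zpow_natCast, ← zpow_mul, mul_comm, zpow_mul, zpow_natCast, hg, one_zpow]
  have h2 : (φ ⟨g ^ k, ⟨k, rfl⟩⟩) ^ n = 1 := by rw [← map_pow, h1, map_one]
  have h3 : n * Multiplicative.toAdd (φ ⟨g ^ k, ⟨k, rfl⟩⟩) = 0 := by
    have h4 := congrArg Multiplicative.toAdd h2
    rw [toAdd_pow, nsmul_eq_mul] at h4
    exact h4
  rcases mul_eq_zero.1 h3 with h4 | h4
  · exact absurd (Nat.cast_eq_zero.1 h4) hn.ne'
  · exact h4

private theorem good {G : Type} [Group G] (h : LocallyIndicable G) : Good G := by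
  refine ⟨h, tf h, fun α hα => ?_⟩
  refine (Pool.Agent.W649.ZL.regular_iff α).2 ?_
  exact Pool.Agent.W649.ZL.LI_injective _ G h α rfl hα

/-- (1) Let `Γ` be a graph without triangles on a finite linearly ordered set `V`, `G v` groups, and
`R u v`, for the edges with `u < v`, sets of elements of `G u * G v` which become trivial if `G v`
is killed, such that the edge groups are locally indicable and each `G v` embeds in a locally
indicable group compatibly with the relations `R u v`, `u < v` (`OneSided`). Then the free product of the
`G v` modulo all these relations is locally indicable and satisfies the analytic zero divisor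
conjecture. (2) Let `D` be a finite oriented graph without directed cycles and without triangles. The
group with generators the vertices of `D` and relations `u v ^ p(u, v) u⁻¹ = v ^ q(u, v)`, `u → v`,
with non-zero integers `p(u, v)` and `q(u, v)`, is locally indicable and satisfies the analytic
zero divisor conjecture. -/
theorem result :
    (∀ (V : Type) [LinearOrder V] [Finite V] (Γ : SimpleGraph V) (G : V → Type)
      [∀ v, Group (G v)] (R : ∀ u v, Set (Monoid.Coprod (G u) (G v))),
      OneSided (fun G _ => LocallyIndicable G) Γ R →
        Good (Monoid.CoprodI G ⧸ Subgroup.normalClosure (oneRel Γ R))) ∧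
    (∀ (V : Type) [Finite V] (D : V → V → Prop), (∀ v, ¬ Relation.TransGen D v v) →
      (∀ u v w, (D u v ∨ D v u) → (D v w ∨ D w v) → ¬ (D u w ∨ D w u)) →
      ∀ p q : V → V → ℤ, (∀ u v, D u v → p u v ≠ 0) → (∀ u v, D u v → q u v ≠ 0) →
        Good (PresentedGroup (bsRel D p q))) :=
  ⟨fun _ _ _ _ _ _ _ h => good (li_main h), fun _ _ D hac htri p q hp hq =>
    good (bs_li D hac htri p q hp hq)⟩

end Pool.Agent.Results.MP_0f25e6_al.OrientedGraphGroups
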