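import Pool.Agent.U731.ZD.Reg
import Pool.Agent.U731.ZD.Klein

/-!
# Elements of small norm of the group algebra of a torsion-free group

Let `G` be a torsion-free group and `α` an element of the complex group algebra whose nonzero
coefficients have absolute value at least `m > 0`. If the norm of the operator `f ↦ α * f` on `ℓ²(G)`
is less than `√6 m`, then `α` has at most three terms, its support lies in a coset of a cyclic
subgroup, and `α * f ≠ 0` for all nonzero `f` in `ℓ²(G)`. The constant `√6` is the best possible.

Idea. The norm bound is used only for explicit vectors with at most a few dozen terms. Evaluated at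
`1` the bound gives fewer than six terms. Suppose first that two of the quotients of the terms do not
commute or generate a group which is not cyclic: then there are long words with distinct values, and
vectors supported on such words (pieces of hexagonal lattices in the rank two case, balls of trees
otherwise) have an image which is too long. For four and five terms a decision tree on the
coincidences of the quotients shows that always one of the vectors works.
-/

set_option autoImplicit false

namespace Pool.Agent.Results.MP_0f25e6_al.SmallNorm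

/-- `G` is torsion-free. -/
def TorsionFree (G : Type) [Group G] : Prop := ∀ g : G, ∀ n : ℕ, 0 < n → g ^ n = 1 → g = 1

/-- The convolution `(α * f)(g) = ∑ α(k) f(k⁻¹ g)`. -/
noncomputable def conv {G : Type} [Group G] (α : G →₀ ℂ) (f : G → ℂ) (g : G) : ℂ :=
  ∑ k ∈ α.support, α k * f (k⁻¹ * g)

/-- `α * f` is nonzero for every nonzero square-summable `f`. -/
def Regular {G : Type} [Group G] (α : G →₀ ℂ) : Prop :=
  ∀ f : G → ℂ, Memℓp f 2 → f ≠ 0 → ∃ g : G, conv α f g ≠ 0

/-- The operator `f ↦ α * f` on `ℓ²(G)` has norm at most `c`. -/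
def NormAtMost {G : Type} [Group G] (α : G →₀ ℂ) (c : ℝ) : Prop :=
  0 ≤ c ∧ ∀ (f : lp (fun _ : G => ℂ) 2) (U : Finset G),
    ∑ g ∈ U, ‖conv α f g‖ ^ 2 ≤ (c * ‖f‖) ^ 2

/-- The support of `α` lies in a coset of a cyclic subgroup. -/
def CyclicSupport {G : Type} [Group G] (α : G →₀ ℂ) : Prop :=
  ∃ p x : G, ∀ g ∈ α.support, ∃ n : ℤ, g = x ^ n * p

open Pool.Agent.U731.ZD in
theorem small_norm (G : Type) [Group G] (htf : TorsionFree G) (α : G →₀ ℂ) (m c : ℝ) (hα : α ≠ 0)
    (hm : 0 < m) (hA : ∀ g ∈ α.support, m ≤ ‖α g‖) (hN : NormAtMost α c) (hc : c < √6 * m) :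
    α.support.card ≤ 3 ∧ CyclicSupport α ∧ Regular α := by
  have hc2 : c ^ 2 < 6 * m ^ 2 := by
    have h1 : c ^ 2 < (√6 * m) ^ 2 := by
      have := hN.1
      gcongr
    rwa [mul_pow, Real.sq_sqrt (by norm_num)] at h1
  obtain ⟨h1, h2⟩ := main htf α hm hA hN.2 hc2
  refine ⟨h1, h2, ?_⟩
  obtain ⟨p, x, h3⟩ := h2
  intro f hf hf0
  by_contra h
  push Not at h
  exact hf0 (cyc_reg htf α hα h3 hf h)

open Pool.Agent.U731.ZD in
theorem sharp : ∃ (G : Type) (_ : Group G), TorsionFree G ∧ ∃ α : G →₀ ℂ, α.support.card = 3 ∧
    (∀ g ∈ α.support, ‖α g‖ = 1) ∧ NormAtMost α √6 ∧ ¬ CyclicSupport α := by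
  classical
  have hs : ∀ α : KleinGroup →₀ ℂ, α = Finsupp.single 1 1 + Finsupp.single ka 1
      + Finsupp.single kb Complex.I → α 1 = 1 ∧ α ka = 1 ∧ α kb = Complex.I ∧
      α.support = {1, ka, kb} := by
    intro α hα
    have a1 := ka_ne_one
    have a2 := kb_ne_one
    have a3 := ka_ne_kb
    have v1 : α 1 = 1 := by
      rw [hα]; simp [Finsupp.single_apply, a1, a2, a3, a1.symm, a2.symm, a3.symm]
    have v2 : α ka = 1 := by
      rw [hα]; simp [Finsupp.single_apply, a1, a2, a3, a1.symm, a2.symm, a3.symm]
    have v3 : α kb = Complex.I := by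
      rw [hα]; simp [Finsupp.single_apply, a1, a2, a3, a1.symm, a2.symm, a3.symm]
    refine ⟨v1, v2, v3, ?_⟩
    ext g
    rw [Finsupp.mem_support_iff]
    simp only [Finset.mem_insert, Finset.mem_singleton]
    constructor
    · intro hg
      by_contra h
      push Not at h
      apply hg
      rw [hα]
      simp [Finsupp.single_apply, h.1.symm, h.2.1.symm, h.2.2.symm]
    · rintro (rfl | rfl | rfl)
      · rw [v1]; exact one_ne_zero
      · rw [v2]; exact one_ne_zero
      · rw [v3]; exact Complex.I_ne_zero
  obtain ⟨α, hα⟩ : ∃ α : KleinGroup →₀ ℂ, α = Finsupp.single 1 1 + Finsupp.single ka 1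
      + Finsupp.single kb Complex.I := ⟨_, rfl⟩
  obtain ⟨v1, v2, v3, v4⟩ := hs α hα
  refine ⟨KleinGroup, inferInstance, klein_tf, α, ?_, ?_, ⟨Real.sqrt_nonneg _, ?_⟩, ?_⟩
  · rw [v4, Finset.card_insert_of_notMem, Finset.card_pair ka_ne_kb]
    simp only [Finset.mem_insert, Finset.mem_singleton, not_or]
    exact ⟨ka_ne_one, kb_ne_one⟩
  · intro g hg
    rw [v4] at hg
    simp only [Finset.mem_insert, Finset.mem_singleton] at hg
    rcases hg with rfl | rfl | rfl
    · rw [v1]; simp
    · rw [v2]; simp
    · rw [v3]; simp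
  · intro f U
    have h1 : ∀ g, conv α f g = f g + f (ka⁻¹ * g) + Complex.I * f (kb⁻¹ * g) := by
      intro g
      unfold conv
      rw [v4, Finset.sum_insert, Finset.sum_pair ka_ne_kb, v1, v2, v3, inv_one]
      · simp only [one_mul]; ring
      · simp only [Finset.mem_insert, Finset.mem_singleton, not_or]
        exact ⟨ka_ne_one, kb_ne_one⟩
    simp only [h1]
    rw [mul_pow, Real.sq_sqrt (by norm_num)]
    exact klein_fun ka_sq f U
  · rintro ⟨p, x, h⟩
    refine not_coset not_comm p x (h 1 ?_) (h ka ?_) (h kb ?_)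
    · rw [v4]; simp
    · rw [v4]; simp
    · rw [v4]; simp

/-- **Elements of norm less than `√6`.** (1) Let `G` be a torsion-free group, `m > 0` and `α` a nonzero
element of the complex group algebra whose nonzero coefficients have absolute value at least `m`. If
the operator `f ↦ α * f` on `ℓ²(G)` has norm less than `√6 m`, then `α` has at most three terms, the
support of `α` lies in a coset of a cyclic subgroup, and `α * f ≠ 0` for every nonzero `f` in
`ℓ²(G)`. (2) The constant is the best possible: there are a torsion-free group and an element with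
three terms and coefficients of absolute value one, whose operator has norm at most `√6` (so that
the norm is `√6`) and whose support does not lie in a coset of a cyclic subgroup. -/
theorem result :
    (∀ (G : Type) [Group G], TorsionFree G → ∀ (α : G →₀ ℂ) (m c : ℝ), α ≠ 0 → 0 < m →
      (∀ g ∈ α.support, m ≤ ‖α g‖) → NormAtMost α c → c < √6 * m →
      α.support.card ≤ 3 ∧ CyclicSupport α ∧ Regular α) ∧
    (∃ (G : Type) (_ : Group G), TorsionFree G ∧ ∃ α : G →₀ ℂ, α.support.card = 3 ∧
      (∀ g ∈ α.support, ‖α g‖ = 1) ∧ NormAtMost α √6 ∧ ¬ CyclicSupport α) :=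
  ⟨small_norm, sharp⟩

end Pool.Agent.Results.MP_0f25e6_al.SmallNorm
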