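import Pool.Agent.U700.SE3

/-!
# Analytic zero divisors with few terms: groups without small prime quotients

`Indicable M G`: every nontrivial finitely generated subgroup of `G` has a nontrivial homomorphism to
`ℤ` or to `ℤ/p` for a prime number `p > M`. This class contains the locally indicable groups, the
finite `p`-groups for `p > M`, the finite solvable groups all of whose prime factors are larger than
`M`, and all groups which are residually in the class; it is closed under extensions.

If `Q ^ (k - 1) ≤ M`, the kernel on `ℓ²(G)` of every nonzero element `α` of the complex group algebra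
with at most `k` terms has von Neumann dimension at most `2 log₂(k) / Q`, and every square-summable `f`
with `α * f = 0` is spread: `|f(x)|² ≤ (2 log₂(k) / Q) ‖f‖²`. So for a finite solvable group without
prime factors `≤ Q ^ (k - 1)` the solutions of `α * f = 0` form a space of dimension at most
`(2 log₂(k) / Q) |G|`. (By the theorem of Feit and Thompson, which is not used here, all finite groups
of odd order are solvable.)

Idea. After a translation `1` is in the support of `α`; let `K` be the subgroup generated by the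
support and `φ : K → ℤ/p` nontrivial. By Dirichlet's theorem on simultaneous approximation `φ` can be
multiplied by a unit of `ℤ/p` such that all terms have values `m(t)` with `|m(t)| < p / Q`. The
twists of `α` by the `p` characters `ζ ^ φ` have the same kernel dimension; up to the factor
`ζ ^ (min m)` they are the values at the `p`-th roots of unity `ζ` of a polynomial of degree
`d = max m - min m < 2 p / Q` with operator coefficients, and for such a polynomial the sum of the
kernel dimensions at `p` points is at most `d + (p - d) dim ker (leading coefficient)`. The leading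
coefficient, or the lowest one, has at most half as many terms as `α`.
-/

set_option autoImplicit false

universe u v

namespace Pool.Agent.Results.MP_0f25e6_al.SparseElements

/-- All square-summable `f` with `α * f = 0`. -/
def kernel {G : Type u} [Group G] (α : G →₀ ℂ) : Set (lp (fun _ : G => ℂ) 2) :=
  {f | ∀ g : G, ∑ t ∈ α.support, α t * f (t⁻¹ * g) = 0}

open Classical in
/-- The von Neumann dimension of the kernel of left convolution by `α` on `ℓ²(G)`: one minus the
square of the distance from the basis vector at the identity of `G` to the kernel (this is the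
squared length of the projection of that vector to the kernel). -/
noncomputable def kerDim {G : Type u} [Group G] (α : G →₀ ℂ) : ℝ :=
  1 - Metric.infDist (lp.single 2 (1 : G) (1 : ℂ)) (kernel α) ^ 2

/-- Every nontrivial finitely generated subgroup of `G` has a nontrivial homomorphism to `ℤ` or to
`ℤ/p` for a prime number `p > M`. -/
def Indicable (M : ℕ) (G : Type u) [Group G] : Prop :=
  ∀ K : Subgroup G, K.FG → K ≠ ⊥ → (∃ φ : K →* Multiplicative ℤ, ∃ k, φ k ≠ 1) ∨
    ∃ p : ℕ, p.Prime ∧ M < p ∧ ∃ φ : K →* Multiplicative (ZMod p), ∃ k, φ k ≠ 1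

/-- The solutions `f : G → ℂ` of `α * f = 0`. -/
def solutions {G : Type u} [Group G] (α : G →₀ ℂ) : Submodule ℂ (G → ℂ) where
  carrier := {f | ∀ g : G, ∑ t ∈ α.support, α t * f (t⁻¹ * g) = 0}
  zero_mem' := by intro g; simp
  add_mem' := by
    intro f f' hf hf' g
    simp only [Pi.add_apply, mul_add, Finset.sum_add_distrib]
    rw [hf g, hf' g, add_zero]
  smul_mem' := by
    intro c f hf g
    have h : ∑ t ∈ α.support, α t * (c • f) (t⁻¹ * g)
        = c * ∑ t ∈ α.support, α t * f (t⁻¹ * g) := by
      rw [Finset.mul_sum]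
      refine Finset.sum_congr rfl fun t _ => ?_
      simp only [Pi.smul_apply, smul_eq_mul]
      ring
    rw [h, hf g, mul_zero]

open Pool.Agent.W649.ZL in
theorem main_bound {G : Type u} [Group G] (Q k : ℕ) (hQ : 0 < Q) (hG : Indicable (Q ^ (k - 1)) G)
    (α : G →₀ ℂ) (hα : α ≠ 0) (hk : α.support.card ≤ k) :
    vd (LinearMap.ker (cop α : EE G Unit →ₗ[ℂ] EE G Unit)) ≤ 2 * (Nat.log 2 k : ℝ) / Q := by
  have h := Pool.Agent.U700.SE.main Q k hQ α.support.card G hk hG α rfl hα
  refine h.trans ?_
  have h1 : (Nat.log 2 α.support.card : ℝ) ≤ Nat.log 2 k := by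
    exact_mod_cast Nat.log_mono_right hk
  have hQ' : (0 : ℝ) < Q := by exact_mod_cast hQ
  apply div_le_div_of_nonneg_right _ hQ'.le
  linarith

/-- **Sparse elements over groups without small prime quotients.**
(1) Let every nontrivial finitely generated subgroup of `G` have a nontrivial homomorphism to `ℤ` or
to `ℤ/p` for a prime `p > Q ^ (k - 1)`, and let `α ≠ 0` in `ℂ[G]` have at most `k` terms. Then the
kernel of `α` on `ℓ²(G)` has von Neumann dimension at most `2 log₂(k) / Q`, and
`|f(x)|² ≤ (2 log₂(k) / Q) ‖f‖²` for all square-summable `f` with `α * f = 0` and all `x`.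
(2) The hypothesis on `G` holds if `G` is residually a finite solvable group without prime factors
`≤ Q ^ (k - 1)` (for instance residually a finite `p`-group, `p > Q ^ (k - 1)`), and it is preserved
by extensions.
(3) If `G` is a finite solvable group without prime factors `≤ Q ^ (k - 1)`, the solutions `f : G → ℂ`
of `α * f = 0` form a space of dimension at most `(2 log₂(k) / Q) |G|`. -/
theorem result :
    (∀ (G : Type u) [Group G] (Q k : ℕ) (α : G →₀ ℂ), 0 < Q → Indicable (Q ^ (k - 1)) G → α ≠ 0 →
      α.support.card ≤ k →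
      kerDim α ≤ 2 * (Nat.log 2 k : ℝ) / Q ∧
      ∀ f ∈ kernel α, ∀ x : G, ‖f x‖ ^ 2 ≤ 2 * (Nat.log 2 k : ℝ) / Q * ‖f‖ ^ 2) ∧
    (∀ (G : Type u) [Group G] (M : ℕ),
      (∀ g : G, g ≠ 1 → ∃ (H : Type v) (_ : Group H) (ψ : G →* H), Finite H ∧ Group.IsSolvable H ∧
        (∀ p : ℕ, p.Prime → p ∣ Nat.card H → M < p) ∧ ψ g ≠ 1) → Indicable M G) ∧
    (∀ (G : Type u) [Group G] (N : Subgroup G) [N.Normal] (M : ℕ),
      Indicable M N → Indicable M (G ⧸ N) → Indicable M G) ∧
    (∀ (G : Type u) [Group G] [Finite G] (Q k : ℕ) (α : G →₀ ℂ), 0 < Q → Group.IsSolvable G →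
      (∀ p : ℕ, p.Prime → p ∣ Nat.card G → Q ^ (k - 1) < p) → α ≠ 0 → α.support.card ≤ k →
      (Module.finrank ℂ (solutions α) : ℝ) ≤ 2 * (Nat.log 2 k : ℝ) / Q * Nat.card G) := by
  have key : ∀ (G : Type u) [Group G] (Q k : ℕ) (α : G →₀ ℂ), 0 < Q → Indicable (Q ^ (k - 1)) G →
      α ≠ 0 → α.support.card ≤ k → ∀ F : Pool.Agent.W649.ZL.EE G Unit,
      Pool.Agent.W649.ZL.cop α F = 0 → ∀ x : G,
        ‖F (x, ())‖ ^ 2 ≤ 2 * (Nat.log 2 k : ℝ) / Q * ‖F‖ ^ 2 := by
    intro G _ Q k α hQ hG hα hk F hF x
    have h1 := main_bound Q k hQ hG α hα hk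
    have h2 := Pool.Agent.U700.SE.value_le _
      (Pool.Agent.W649.ZL.inv_ker _ (Pool.Agent.W649.ZL.cop_eqv α)) F hF x
    refine h2.trans ?_
    gcongr
  refine ⟨?_, ?_, ?_, ?_⟩
  · intro G _ Q k α hQ hG hα hk
    refine ⟨?_, ?_⟩
    · have h1 := main_bound Q k hQ hG α hα hk
      have h2 := Pool.Agent.W649.ZL.kerDim_eq_vd α
      have h3 : kerDim α = Pool.Agent.W649.ZL.vd (LinearMap.ker (Pool.Agent.W649.ZL.cop α :
        Pool.Agent.W649.ZL.EE G Unit →ₗ[ℂ] Pool.Agent.W649.ZL.EE G Unit)) := h2
      rw [h3]
      exact h1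
    · intro f hf x
      have h4 : Pool.Agent.W649.ZL.cop α (Pool.Agent.W649.ZL.toU f) = 0 := by
        ext ⟨g, ⟨⟩⟩
        rw [Pool.Agent.W649.ZL.cop_apply]
        exact hf g
      have h5 := key G Q k α hQ hG hα hk _ h4 x
      rw [Pool.Agent.W649.ZL.norm_toU, Pool.Agent.W649.ZL.toU_apply] at h5
      exact h5
  · intro G _ M h
    apply Pool.Agent.U700.SE.ind_of_residual M G
    intro g hg
    obtain ⟨H, i1, ψ, h1, h2, h3, h4⟩ := h g hg
    exact ⟨H, i1, ψ, Pool.Agent.U700.SE.ind_of_finite M H h3, h4⟩
  · intro G _ N _ M hN hQ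
    exact Pool.Agent.U700.SE.ind_of_extension M G N hN hQ
  · intro G _ _ Q k α hQ hS hp hα hk
    classical
    have hFin : Fintype G := Fintype.ofFinite G
    have hG : Indicable (Q ^ (k - 1)) G := Pool.Agent.U700.SE.ind_of_finite _ G hp
    have hc : (0 : ℝ) ≤ 2 * (Nat.log 2 k : ℝ) / Q := by positivity
    have h1 := Pool.Agent.U700.SE.finrank_le (solutions α) (2 * (Nat.log 2 k : ℝ) / Q) hc (by
      intro f hf x
      let F : Pool.Agent.W649.ZL.EE G Unit := ⟨fun y => f y.1, Memℓp.all _⟩
      have h4 : Pool.Agent.W649.ZL.cop α F = 0 := by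
        ext ⟨g, ⟨⟩⟩
        rw [Pool.Agent.W649.ZL.cop_apply]
        exact hf g
      have h5 := key G Q k α hQ hG hα hk F h4 x
      rw [Pool.Agent.W649.ZL.norm_sq_tsum, tsum_fintype] at h5
      have h6 : ∑ y : G × Unit, ‖F y‖ ^ 2 = ∑ y : G, ‖f y‖ ^ 2 := by
        rw [Fintype.sum_prod_type]
        simp [F]
      rw [h6] at h5
      exact h5)
    rw [Nat.card_eq_fintype_card]
    exact h1

end Pool.Agent.Results.MP_0f25e6_al.SparseElements
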